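import Pool.Agent.Helper21K1.Mean

/-!
A criterion for regular points on long and short moving cylinders, viscosity one (helper21).
-/

set_option autoImplicit false

open MeasureTheory Set Metric Filter Topology
open scoped ContDiff NNReal ENNReal

namespace Pool.Agent.Helper21K1

open H459R3.NS W221.NS Pool.Agent.Y8 Pool.Agent.Y496.NS Pool.Agent.Y458.NS Pool.Agent.W12.MD
open Pool.Agent.Y496.NS.TU (enst_ion enstrophy_sm)

/-- The mean over a cube is bounded by the energy. -/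
theorem av_bd : ∃ K : ℝ, 0 < K ∧ ∀ (E : ℝ) (w : V → V), SPV w → energy w ≤ E ^ 2 →
    ∀ (r : ℝ) (x : V), 0 < r → r ≤ 1 → ‖av r w x‖ ≤ K * |E| / √(r ^ 3) := by
  obtain ⟨C, hC, hb⟩ := ball_le 1
  refine ⟨√C, by positivity, fun E w hw hE r x hr hr1 => ?_⟩
  rw [pi_norm_le_iff_of_nonneg (by positivity)]
  intro i
  have h1 := av_cmp hw.1 x hr 0 i
  simp only [Pi.zero_apply, sub_zero] at h1
  have h2 : A2 x r w ≤ ∫ z in ball x 1, nsq w z := by
    unfold A2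
    exact setIntegral_mono_set (ballint (nsq_sm hw.1).continuous _ _)
      (ae_of_all _ fun z => nsq_nn w z) (ball_subset_ball hr1).eventuallyLE
  have h3 := hb _ (nsq_sm hw.1).continuous (nsq_per hw.2) (nsq_nn w) x
  rw [← energy_eq hw.1] at h3
  have h4 : av r w x i ^ 2 ≤ C * |E| ^ 2 / r ^ 3 := by
    rw [sq_abs]
    have h5 : 0 ≤ C * E ^ 2 := by positivity
    calc av r w x i ^ 2 ≤ ((2 * r) ^ 3)⁻¹ * A2 x r w := h1
      _ ≤ ((2 * r) ^ 3)⁻¹ * (C * E ^ 2) := by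
          refine mul_le_mul_of_nonneg_left (h2.trans (h3.trans ?_)) (by positivity)
          exact mul_le_mul_of_nonneg_left hE hC.le
      _ ≤ (r ^ 3)⁻¹ * (C * E ^ 2) := by
          refine mul_le_mul_of_nonneg_right (inv_anti₀ (by positivity) ?_) h5
          exact pow_le_pow_left₀ hr.le (by linarith) 3
      _ = _ := by ring
  rw [Real.norm_eq_abs, ← Real.sqrt_sq_eq_abs]
  calc √(av r w x i ^ 2) ≤ √(C * |E| ^ 2 / r ^ 3) := Real.sqrt_le_sqrt h4
    _ = _ := by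
        rw [Real.sqrt_div (by positivity), Real.sqrt_mul (by positivity),
          Real.sqrt_sq (abs_nonneg E)]

section

variable {T E D : ℝ} {G : Set ℝ} {u : ℝ → V → V} {p : ℝ → V → ℝ}

theorem av_cont (h : Turb 1 T E D G u p) {ξ : ℝ → V} (hξ : Continuous ξ) (r : ℝ) :
    ContinuousOn (fun t => av r (u t) (ξ t)) G := by
  refine continuousOn_pi.2 fun i => ?_
  have h1 : ContinuousOn (fun z : ℝ × V => u z.1 (ξ z.1 + z.2) i) (G ×ˢ univ) := by
    have h2 : ContinuousOn (fun z : ℝ × V => ((z.1, ξ z.1 + z.2) : ℝ × V)) (G ×ˢ univ) :=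
      (by fun_prop : Continuous fun z : ℝ × V => ((z.1, ξ z.1 + z.2) : ℝ × V)).continuousOn
    have h3 := h.smooth_u.continuousOn
    have h4 : ContinuousOn (fun z : ℝ × V => u z.1 (ξ z.1 + z.2)) (G ×ˢ univ) :=
      ContinuousOn.comp (g := fun w : ℝ × V => u w.1 w.2)
        (f := fun z : ℝ × V => ((z.1, ξ z.1 + z.2) : ℝ × V)) h3 h2 fun z hz => ⟨hz.1, mem_univ _⟩
    exact continuousOn_pi.1 h4 i
  have h3 := pint_cont h.openG (F := fun t z => u t (ξ t + z) i) h1 0 r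
  have h4 : ContinuousOn (fun t => ((2 * r) ^ 3)⁻¹ * ∫ z in ball (0 : V) r, u t (ξ t + z) i) G :=
    continuousOn_const.mul h3
  refine h4.congr fun t _ => ?_
  show ((2 * r) ^ 3)⁻¹ * _ = ((2 * r) ^ 3)⁻¹ * _
  rw [Pool.Agent.Y496.NS.int_shift (fun z => u t z i) (ξ t) r]

/-- From the regular times to intervals. -/
theorem ion_G {F : Type*} [NormedAddCommGroup F] (h : Turb 1 T E D G u p) {f : ℝ → F}
    (hf : IntegrableOn f G) {a b : ℝ} (ha : 0 ≤ a) (hb : b ≤ T) : IntegrableOn f (Ioo a b) := by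
  have h1 : IntegrableOn f (Ioo a b ∩ G) := hf.mono_set inter_subset_right
  refine h1.congr_set_ae ?_
  have h2 : volume (Ioo a b \ G) = 0 :=
    measure_mono_null (sdiff_subset_sdiff_left (Ioo_subset_Ioo ha hb)) h.fullG
  refine Filter.EventuallyLE.antisymm ?_ inter_subset_left.eventuallyLE
  rw [ae_le_set]
  refine measure_mono_null ?_ h2
  intro t ht
  exact ⟨ht.1, fun h3 => ht.2 ⟨ht.1, h3⟩⟩

theorem ae_G (h : Turb 1 T E D G u p) {a b : ℝ} (ha : 0 ≤ a) (hb : b ≤ T) :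
    ∀ᵐ t ∂(volume.restrict (Ioo a b)), t ∈ G := by
  rw [ae_restrict_iff' measurableSet_Ioo]
  have h2 : volume (Ioo a b \ G) = 0 :=
    measure_mono_null (sdiff_subset_sdiff_left (Ioo_subset_Ioo ha hb)) h.fullG
  have h1 : ∀ᵐ t : ℝ, t ∉ Ioo a b \ G := measure_eq_zero_iff_ae_notMem.1 h2
  filter_upwards [h1] with t ht htJ
  by_contra hc
  exact ht ⟨htJ, hc⟩

theorem av_int (h : Turb 1 T E D G u p) {ξ : ℝ → V} (hξ : Continuous ξ) {r : ℝ} (hr : 0 < r)
    (hr1 : r ≤ 1) : IntegrableOn (fun t => av r (u t) (ξ t)) (Ioo 0 T) := by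
  refine ion_G h ?_ le_rfl le_rfl
  obtain ⟨K, hK, hb⟩ := av_bd
  have hG : volume G < ⊤ := (measure_mono h.subG).trans_lt measure_Ioo_lt_top
  have : IsFiniteMeasure (volume.restrict G) := ⟨by rwa [Measure.restrict_apply_univ]⟩
  refine Integrable.of_bound ((av_cont h hξ r).aestronglyMeasurable h.openG.measurableSet)
    (K * |E| / √(r ^ 3)) ?_
  filter_upwards [ae_restrict_mem h.openG.measurableSet] with t ht
  exact hb E (u t) (h.spv ht) (h.energy_le t ht) r (ξ t) hr hr1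

end

/-- The criterion, viscosity one. -/
def S_MIX1 : Prop := ∃ ε : ℝ, 0 < ε ∧ ∀ (T E D : ℝ) (G : Set ℝ) (u : ℝ → V → V)
  (p : ℝ → V → ℝ), Turb 1 T E D G u p → ∀ ρ r t₀ : ℝ, 0 < ρ → ρ ≤ r → r ≤ 1 → ρ ^ 2 < t₀ →
    t₀ < T → ∀ (x₀ : V) (ξ : ℝ → V), Continuous ξ →
      (∀ t ∈ Icc (t₀ - ρ ^ 2) t₀, ‖ξ t - x₀ + ∫ s in Ioo t t₀, av r (u s) (ξ s)‖ ≤ ε * r) →
      (∫ t in Ioo (t₀ - ρ ^ 2) t₀, B2 (ξ t) r (u t)) ≤ ε * ρ → ¬ SingPt G u t₀ x₀

theorem t_MIX1 (hP : S_POINC) (hpath : S_WPATH) (hcrit : S_CRIT3) : S_MIX1 := by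
  obtain ⟨C₁, hC₁, hcmp⟩ := cmp hP
  obtain ⟨K, hK, hpath⟩ := hpath
  obtain ⟨ε₃, hε₃, hcrit⟩ := hcrit
  obtain ⟨CB, hCB, hB2⟩ := B2_enst 1
  -- the choice of `ε`
  obtain ⟨ε, hε0, hε1, hε2, hε3⟩ : ∃ ε : ℝ, 0 < ε ∧ ε ≤ 1 / 16 ∧ ε ≤ ε₃ / 64 ∧
      C₁ * (9 * √ε) ≤ 1 / 16 := by
    obtain ⟨κ, hκ⟩ : ∃ κ : ℝ, κ = (144 * C₁)⁻¹ := ⟨_, rfl⟩
    have hκ0 : 0 < κ := by rw [hκ]; positivity
    refine ⟨min (min (1 / 16) (ε₃ / 64)) (κ ^ 2), by positivity,
      (min_le_left _ _).trans (min_le_left _ _), (min_le_left _ _).trans (min_le_right _ _), ?_⟩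
    have h1 : √(min (min (1 / 16) (ε₃ / 64)) (κ ^ 2)) ≤ κ := by
      rw [← Real.sqrt_sq hκ0.le]
      exact Real.sqrt_le_sqrt (by rw [Real.sqrt_sq hκ0.le]; exact min_le_right _ _)
    calc C₁ * (9 * √(min (min (1 / 16) (ε₃ / 64)) (κ ^ 2))) ≤ C₁ * (9 * κ) := by gcongr
      _ = 1 / 16 := by
          rw [hκ]
          field_simp
          norm_num
  refine ⟨ε, hε0, ?_⟩
  intro T E D G u p h ρ r t₀ hρ hρr hr1 hρt htT x₀ ξ hξ hdis hB hsing
  have hr : 0 < r := hρ.trans_le hρr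
  have ht0 : 0 < t₀ := (sq_nonneg ρ).trans_lt hρt
  obtain ⟨a, ha⟩ : ∃ a : ℝ, a = t₀ - ρ ^ 2 := ⟨_, rfl⟩
  have ha0 : 0 < a := by rw [ha]; linarith
  have hρ2 : 0 < ρ ^ 2 := by positivity
  have hat : a < t₀ := by rw [ha]; linarith
  rw [← ha] at hdis hB
  obtain ⟨σ, hσ⟩ : ∃ σ : ℝ, σ = ρ / 16 := ⟨_, rfl⟩
  have hσ0 : 0 < σ := by rw [hσ]; positivity
  have hσ1 : σ ≤ 1 := by rw [hσ]; linarith
  obtain ⟨C, hC, hpath⟩ := hpath E σ hσ0 hσ1
  obtain ⟨X, Y, hX0, hX⟩ := hpath T D G u p h t₀ ⟨ht0, htT⟩ x₀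
  -- integrability of the velocity
  have hYd : ∀ t ∈ Ioo 0 T, deriv X t = Y t := fun t ht => (hX.hd t ht).deriv
  have hYi : IntegrableOn Y (Ioo 0 T) := by
    have h1 : IntegrableOn (deriv X) (Ioo 0 T) := by
      refine Measure.integrableOn_of_bounded (M := K * |E| / √(σ ^ 3) + 1)
        measure_Ioo_lt_top.ne (stronglyMeasurable_deriv X).aestronglyMeasurable ?_
      filter_upwards [ae_restrict_mem measurableSet_Ioo] with t ht
      rw [hYd t ht]
      exact hX.bd t ht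
    exact h1.congr_fun hYd measurableSet_Ioo
  have hXc : ContinuousOn X (Ioo 0 T) := fun t ht => (hX.hd t ht).continuousAt.continuousWithinAt
  have hXG : ContinuousOn X G := hX.sm.continuousOn
  have hsub : Icc a t₀ ⊆ Ioo 0 T := fun t ht => ⟨ha0.trans_le ht.1, ht.2.trans_lt htT⟩
  have hft : ∀ t ∈ Icc a t₀, X t - x₀ = -∫ s in Ioo t t₀, Y s := by
    intro t ht
    have h1 : ∫ s in t..t₀, Y s = X t₀ - X t := by
      refine intervalIntegral.integral_eq_sub_of_hasDerivAt (fun s hs => ?_) ?_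
      · rw [uIcc_of_le ht.2] at hs
        exact hX.hd s (hsub ⟨ht.1.trans hs.1, hs.2⟩)
      · rw [intervalIntegrable_iff_integrableOn_Ioo_of_le ht.2]
        exact hYi.mono_set (Ioo_subset_Ioo (ha0.le.trans ht.1) htT.le)
    rw [← integral_Ioc_eq_integral_Ioo, ← intervalIntegral.integral_of_le ht.2, h1, hX0]
    abel
  have havi := av_int h hξ hr hr1
  -- the distance
  have hdist : ∀ t ∈ Icc a t₀, ‖X t - ξ t‖ ≤ ε * r +
      ∫ s in Ioo t t₀, ‖Y s - av r (u s) (ξ s)‖ := by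
    intro t ht
    have hI : Ioo t t₀ ⊆ Ioo 0 T := Ioo_subset_Ioo (ha0.le.trans ht.1) htT.le
    have h1 : X t - ξ t = -(ξ t - x₀ + ∫ s in Ioo t t₀, av r (u s) (ξ s)) -
        ∫ s in Ioo t t₀, (Y s - av r (u s) (ξ s)) := by
      rw [integral_sub (hYi.mono_set hI) (havi.mono_set hI)]
      have h2 := hft t ht
      have h3 : X t = x₀ - ∫ s in Ioo t t₀, Y s := by
        rw [sub_eq_iff_eq_add] at h2
        rw [h2]
        abel
      rw [h3]
      abel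
    rw [h1]
    refine (norm_sub_le _ _).trans ?_
    rw [norm_neg]
    exact add_le_add (hdis t ht) (norm_integral_le_integral_norm _)
  -- the integrand
  have hBi : IntegrableOn (fun t => B2 (ξ t) r (u t)) (Ioo 0 T) :=
    ion_G h (B2_mov_int h hξ.continuousOn r) le_rfl le_rfl
  have hs0 : 0 < √ε := Real.sqrt_pos.2 hε0
  have hkey : ∀ t ∈ Icc a t₀, (∀ s ∈ Ioc t t₀, ‖X s - ξ s‖ < r / 4) → ‖X t - ξ t‖ ≤ r / 8 := by
    intro t ht hs
    have hI : Ioo t t₀ ⊆ Ioo 0 T := Ioo_subset_Ioo (ha0.le.trans ht.1) htT.le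
    have hI2 : Ioo t t₀ ⊆ Ioo a t₀ := Ioo_subset_Ioo ht.1 le_rfl
    refine (hdist t ht).trans ?_
    obtain ⟨g, hg⟩ : ∃ g : ℝ → ℝ, g = fun s =>
      C₁ * (√ε / (2 * ρ) + ρ / (2 * √ε) * (σ⁻¹ * B2 (ξ s) r (u s))) := ⟨_, rfl⟩
    have i1 : IntegrableOn (fun _ : ℝ => √ε / (2 * ρ)) (Ioo t t₀) :=
      integrableOn_const measure_Ioo_lt_top.ne
    have i2 : IntegrableOn (fun s => ρ / (2 * √ε) * (σ⁻¹ * B2 (ξ s) r (u s))) (Ioo t t₀) :=
      ((hBi.mono_set hI).const_mul _).const_mul _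
    have hgi : IntegrableOn g (Ioo t t₀) := by
      rw [hg]
      exact (i1.add i2).const_mul _
    have h1 : ∫ s in Ioo t t₀, ‖Y s - av r (u s) (ξ s)‖ ≤ ∫ s in Ioo t t₀, g s := by
      refine setIntegral_mono_ae_restrict ((hYi.mono_set hI).sub (havi.mono_set hI)).norm hgi ?_
      filter_upwards [ae_G h (ha0.le.trans ht.1) htT.le (a := t) (b := t₀),
        ae_restrict_mem measurableSet_Ioo] with s hsG hsI
      have h2 : ‖X s - ξ s‖ ≤ r / 4 := (hs s ⟨hsI.1, hsI.2.le⟩).le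
      have h3 := hcmp (u s) (h.spv hsG).1 (ξ s) (X s) r σ hσ0 (by rw [hσ]; linarith) h2
      rw [hX.ev s hsG]
      refine h3.trans ?_
      rw [hg]
      refine mul_le_mul_of_nonneg_left ?_ hC₁.le
      obtain ⟨b, hb⟩ : ∃ b : ℝ, b = σ⁻¹ * B2 (ξ s) r (u s) := ⟨_, rfl⟩
      have hb0 : 0 ≤ b := by
        rw [hb]
        exact mul_nonneg (by positivity) (Pool.Agent.Y496.NS.B2_nn _ _ _)
      rw [← hb]
      -- `√b ≤ λ / 2 + b / (2 λ)`
      have h5 : √ε / (2 * ρ) + ρ / (2 * √ε) * b - √b =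
          (ρ / (2 * √ε)) * (√b - √ε / ρ) ^ 2 := by
        have hbs : √b ^ 2 = b := Real.sq_sqrt hb0
        have e : (√b - √ε / ρ) ^ 2 = √b ^ 2 - 2 * √b * (√ε / ρ) + (√ε / ρ) ^ 2 := by ring
        rw [e, hbs]
        field_simp
        ring
      have h6 : 0 ≤ (ρ / (2 * √ε)) * (√b - √ε / ρ) ^ 2 := by positivity
      linarith
    have h7 : ∫ s in Ioo t t₀, g s ≤ C₁ * (9 * √ε * ρ) := by
      have h8 : ∫ s in Ioo t t₀, g s = C₁ * (√ε / (2 * ρ) * (t₀ - t) +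
          ρ / (2 * √ε) * (σ⁻¹ * ∫ s in Ioo t t₀, B2 (ξ s) r (u s))) := by
        rw [hg, integral_const_mul, integral_add i1 i2, integral_const_mul, integral_const_mul,
          setIntegral_const, Measure.real, Real.volume_Ioo,
          ENNReal.toReal_ofReal (by linarith [ht.2]), smul_eq_mul]
        ring
      have h9 : ∫ s in Ioo t t₀, B2 (ξ s) r (u s) ≤ ε * ρ :=
        (setIntegral_mono_set (hBi.mono_set (Ioo_subset_Ioo ha0.le htT.le))
          (ae_of_all _ fun s => Pool.Agent.Y496.NS.B2_nn _ _ _) hI2.eventuallyLE).trans hB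
      have h10 : t₀ - t ≤ ρ ^ 2 := by
        have := ht.1
        rw [ha] at this
        linarith
      rw [h8]
      refine mul_le_mul_of_nonneg_left ?_ hC₁.le
      calc √ε / (2 * ρ) * (t₀ - t) + ρ / (2 * √ε) * (σ⁻¹ * ∫ s in Ioo t t₀, B2 (ξ s) r (u s))
          ≤ √ε / (2 * ρ) * ρ ^ 2 + ρ / (2 * √ε) * (σ⁻¹ * (ε * ρ)) := by gcongr
        _ = √ε * ρ / 2 + 8 * √ε * ρ := by
            have e1 : ε = √ε * √ε := (Real.mul_self_sqrt hε0.le).symm
            have e2 : ρ / (2 * √ε) * (σ⁻¹ * (ε * ρ)) = 8 * √ε * ρ := by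
              rw [hσ]
              nth_rewrite 2 [e1]
              field_simp
              ring
            rw [e2]
            field_simp
        _ ≤ 9 * √ε * ρ := by nlinarith [mul_pos hs0 hρ]
    calc ε * r + ∫ s in Ioo t t₀, ‖Y s - av r (u s) (ξ s)‖
        ≤ 1 / 16 * r + C₁ * (9 * √ε * ρ) := by
          have := h1.trans h7
          gcongr
      _ = 1 / 16 * r + C₁ * (9 * √ε) * ρ := by ring
      _ ≤ 1 / 16 * r + 1 / 16 * r := by gcongr
      _ = r / 8 := by ring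
  -- the path stays in the tube
  have hfc : ContinuousOn (fun t => ‖X t - ξ t‖) (Icc a t₀) :=
    ((hXc.mono hsub).sub hξ.continuousOn).norm
  have hin : ∀ t ∈ Icc a t₀, ‖X t - ξ t‖ < r / 4 := by
    by_contra hcon
    push Not at hcon
    obtain ⟨t₁, ht₁, hf₁⟩ := hcon
    have hne : (Icc a t₀ ∩ (fun t => ‖X t - ξ t‖) ⁻¹' Ici (r / 4)).Nonempty := ⟨t₁, ht₁, hf₁⟩
    have hcomp : IsCompact (Icc a t₀ ∩ (fun t => ‖X t - ξ t‖) ⁻¹' Ici (r / 4)) :=
      isCompact_Icc.of_isClosed_subset (hfc.preimage_isClosed_of_isClosed isClosed_Icc isClosed_Ici)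
        inter_subset_left
    obtain ⟨t₂, ht₂, hmax⟩ := hcomp.exists_isGreatest hne
    have h1 := hkey t₂ ht₂.1 (by
      intro s hs
      by_contra hc
      rw [not_lt] at hc
      have h2 := hmax ⟨⟨ht₂.1.1.trans hs.1.le, hs.2⟩, hc⟩
      linarith [hs.1])
    have h3 : r / 4 ≤ ‖X t₂ - ξ t₂‖ := ht₂.2
    linarith
  -- the dissipation after `t₀`
  have hen : IntegrableOn (fun t => enstrophy (u t)) (Ioo 0 T) := enst_ion h le_rfl le_rfl
  obtain ⟨g, hg⟩ : ∃ g : ℝ → ℝ, g = (Ioo 0 T).indicator (fun t => enstrophy (u t)) := ⟨_, rfl⟩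
  have hgi : Integrable g := by
    rw [hg]
    exact (integrable_indicator_iff measurableSet_Ioo).2 hen
  have hFc : Continuous fun x : ℝ => ∫ τ in t₀..x, g τ :=
    intervalIntegral.continuous_primitive (fun a b => hgi.intervalIntegrable) t₀
  have hlim : Tendsto (fun η : ℝ => ∫ τ in t₀..(t₀ + η), g τ) (𝓝[>] 0) (𝓝 0) := by
    have hc : Continuous (fun η : ℝ => ∫ τ in t₀..(t₀ + η), g τ) :=
      hFc.comp (f := fun η : ℝ => t₀ + η) (by fun_prop)
    have h1 := (hc.tendsto 0).mono_left (nhdsWithin_le_nhds (s := Ioi 0))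
    simpa only [add_zero, intervalIntegral.integral_same] using h1
  have hpos : 0 < min (σ ^ 2 / 16) (T - t₀) := lt_min (by positivity) (by linarith)
  have hsm : ∀ᶠ η in 𝓝[>] (0 : ℝ), ∫ τ in t₀..(t₀ + η), g τ < ε₃ * σ / (4 * CB) :=
    hlim.eventually (gt_mem_nhds (by positivity))
  obtain ⟨η, hη1, hη2⟩ := (hsm.and (Ioo_mem_nhdsGT hpos)).exists
  have hη3 : η < σ ^ 2 / 16 := hη2.2.trans_le (min_le_left _ _)
  have hη4 : t₀ + η < T := by linarith [hη2.2.trans_le (min_le_right (σ ^ 2 / 16) (T - t₀))]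
  have hη0 : 0 < η := hη2.1
  have hσρ : σ ^ 2 = ρ ^ 2 / 256 := by rw [hσ]; ring
  have hc := hcrit T E D G u p h σ (t₀ + η) hσ0 hσ1 (by linarith) hη4 X Y _ C hX t₀
    ⟨by linarith, by linarith⟩ x₀ (by rw [hX0]; exact mem_ball_self (by positivity)) hsing
  obtain ⟨b, hb⟩ : ∃ b : ℝ, b = t₀ + η - σ ^ 2 := ⟨_, rfl⟩
  rw [← hb] at hc
  have hab : a < b := by rw [ha, hb]; linarith
  have hbt : b < t₀ := by rw [hb]; linarith
  have hFi : IntegrableOn (fun t => B2 (X t) (8 * σ) (u t)) (Ioo 0 T) :=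
    ion_G h (B2_mov_int h hXG (8 * σ)) le_rfl le_rfl
  have hsplit : ∫ t in Ioo b (t₀ + η), B2 (X t) (8 * σ) (u t) =
      (∫ t in Ioo b t₀, B2 (X t) (8 * σ) (u t)) +
        ∫ t in Ioo t₀ (t₀ + η), B2 (X t) (8 * σ) (u t) := by
    rw [← integral_Ioc_eq_integral_Ioo, ← integral_Ioc_eq_integral_Ioo,
      ← integral_Ioc_eq_integral_Ioo, ← intervalIntegral.integral_of_le (by linarith),
      ← intervalIntegral.integral_of_le hbt.le, ← intervalIntegral.integral_of_le (by linarith)]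
    refine (intervalIntegral.integral_add_adjacent_intervals ?_ ?_).symm
    · rw [intervalIntegrable_iff_integrableOn_Ioo_of_le hbt.le]
      exact hFi.mono_set (Ioo_subset_Ioo (by linarith) htT.le)
    · rw [intervalIntegrable_iff_integrableOn_Ioo_of_le (by linarith)]
      exact hFi.mono_set (Ioo_subset_Ioo ht0.le hη4.le)
  have hp1 : ∫ t in Ioo b t₀, B2 (X t) (8 * σ) (u t) ≤ ε * ρ := by
    have h1 : ∫ t in Ioo b t₀, B2 (X t) (8 * σ) (u t) ≤ ∫ t in Ioo b t₀, B2 (ξ t) r (u t) := by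
      refine setIntegral_mono_ae_restrict
        (hFi.mono_set (Ioo_subset_Ioo (by linarith) htT.le))
        (hBi.mono_set (Ioo_subset_Ioo (by linarith) htT.le)) ?_
      filter_upwards [ae_G h (by linarith : (0 : ℝ) ≤ b) htT.le,
        ae_restrict_mem measurableSet_Ioo] with s hsG hsI
      refine Pool.Agent.Y496.NS.B2_mono (h.spv hsG).1 (ball_subset_ball' ?_)
      rw [dist_eq_norm]
      have h2 := hin s ⟨by linarith [hsI.1], hsI.2.le⟩
      rw [hσ]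
      linarith
    refine h1.trans ((setIntegral_mono_set (hBi.mono_set (Ioo_subset_Ioo ha0.le htT.le))
          (ae_of_all _ fun s => Pool.Agent.Y496.NS.B2_nn _ _ _)
            (Ioo_subset_Ioo hab.le le_rfl).eventuallyLE).trans hB)
  have hp2 : ∫ t in Ioo t₀ (t₀ + η), B2 (X t) (8 * σ) (u t) ≤ ε₃ * σ / 4 := by
    have h1 : ∫ t in Ioo t₀ (t₀ + η), B2 (X t) (8 * σ) (u t) ≤
        ∫ t in Ioo t₀ (t₀ + η), CB * g t := by
      refine setIntegral_mono_ae_restrict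
        (hFi.mono_set (Ioo_subset_Ioo ht0.le hη4.le)) ((hgi.const_mul CB).integrableOn) ?_
      filter_upwards [ae_G h ht0.le hη4.le (a := t₀) (b := t₀ + η),
        ae_restrict_mem measurableSet_Ioo] with s hsG hsI
      rw [hg, indicator_of_mem (show s ∈ Ioo 0 T from ⟨ht0.trans hsI.1, hsI.2.trans hη4⟩)]
      refine (Pool.Agent.Y496.NS.B2_mono (h.spv hsG).1 (ball_subset_ball ?_)).trans (hB2 (u s) (h.spv hsG) (X s))
      rw [hσ]
      linarith
    refine h1.trans ?_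
    rw [integral_const_mul, ← integral_Ioc_eq_integral_Ioo,
      ← intervalIntegral.integral_of_le (by linarith)]
    calc CB * ∫ t in t₀..(t₀ + η), g t ≤ CB * (ε₃ * σ / (4 * CB)) := by gcongr
      _ = ε₃ * σ / 4 := by field_simp
  have hfin : ε₃ * σ ≤ ε * ρ + ε₃ * σ / 4 := by
    rw [hsplit] at hc
    linarith
  have h1 : ε * ρ ≤ ε₃ / 64 * ρ := by gcongr
  rw [hσ] at hfin
  nlinarith [mul_pos hε₃ hρ]

end Pool.Agent.Helper21K1
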