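import Pool.Agent.Helper21K1.Cyl

/-!
A criterion for regular points on moving cylinders of any proportions: all viscosities, and the
lower bound for the dissipation in short cylinders (helper21).
-/

set_option autoImplicit false

open MeasureTheory Set Metric Filter Topology
open scoped ContDiff NNReal ENNReal

namespace Pool.Agent.Helper21K1

open H459R3.NS W221.NS Pool.Agent.Y8 Pool.Agent.Y496.NS Pool.Agent.Y458.NS Pool.Agent.W12.MD
open Pool.Agent.Y8.FB (chg)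

theorem p_mix1 : S_MIX1 :=
  t_MIX1 Pool.Agent.Y8.B.p_poinc Pool.Agent.Y8.B.p_wpath Pool.Agent.Y8.B.p_crit3

/-- The criterion. -/
def S_MIX : Prop := ∃ ε : ℝ, 0 < ε ∧ ∀ (ν T E D : ℝ) (G : Set ℝ) (u : ℝ → V → V)
  (p : ℝ → V → ℝ), 0 < ν → Turb ν T E D G u p → ∀ ρ r t₀ : ℝ, 0 < ρ → ρ ≤ r → r ≤ 1 →
    ρ ^ 2 / ν < t₀ → t₀ < T → ∀ (x₀ : V) (ξ : ℝ → V), Continuous ξ →
      (∀ t ∈ Icc (t₀ - ρ ^ 2 / ν) t₀,
        ‖ξ t - x₀ + ∫ s in Ioo t t₀, av r (u s) (ξ s)‖ ≤ ε * r) →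
      (∫ t in Ioo (t₀ - ρ ^ 2 / ν) t₀, B2 (ξ t) r (u t)) ≤ ε * ν * ρ → ¬ SingPt G u t₀ x₀

theorem chgV {ν : ℝ} (hν : 0 < ν) {A : Set ℝ} (hA : MeasurableSet A) (g : ℝ → V) :
    ∫ t in {t | t / ν ∈ A}, g (t / ν) = ν • ∫ t in A, g t := by
  have hm : MeasurableSet {t : ℝ | t / ν ∈ A} := by
    have : Measurable (fun t : ℝ => t / ν) := by fun_prop
    exact this hA
  rw [← integral_indicator hm, ← integral_indicator hA]
  have e : ({t : ℝ | t / ν ∈ A}.indicator fun t => g (t / ν)) =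
      fun t => (A.indicator g) (t / ν) := by
    funext t
    by_cases ht : t / ν ∈ A
    · rw [indicator_of_mem ht, indicator_of_mem (show t ∈ {t : ℝ | t / ν ∈ A} from ht)]
    · rw [indicator_of_notMem ht, indicator_of_notMem (show t ∉ {t : ℝ | t / ν ∈ A} from ht)]
  rw [e, Measure.integral_comp_div, abs_of_pos hν]

theorem av_smul (c r : ℝ) (w : V → V) (x : V) : av r (fun y => c • w y) x = c • av r w x := by
  funext i
  show ((2 * r) ^ 3)⁻¹ * ∫ y in ball x r, c * w y i = c * (((2 * r) ^ 3)⁻¹ * ∫ y in ball x r, w y i)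
  rw [integral_const_mul]
  ring

theorem gsq_smul (c : ℝ) (w : V → V) (x : V) : gsq (fun y => c • w y) x = c ^ 2 * gsq w x := by
  unfold gsq
  rw [Finset.mul_sum]
  refine Finset.sum_congr rfl fun i _ => ?_
  rw [Finset.mul_sum]
  refine Finset.sum_congr rfl fun j _ => ?_
  have e1 : pd j (fun y => (c • w y) i) x = c * pd j (fun y => w y i) x := by
    unfold pd
    have : (fun y => (c • w y) i) = c • (fun y => w y i) := rfl
    rw [this, fderiv_const_smul_field]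
    rfl
  rw [e1]
  ring

theorem B2_smul (c : ℝ) (w : V → V) (x : V) (ρ : ℝ) :
    B2 x ρ (fun y => c • w y) = c ^ 2 * B2 x ρ w := by
  unfold B2
  rw [← integral_const_mul]
  refine setIntegral_congr_fun measurableSet_ball fun z _ => ?_
  exact gsq_smul c w z

theorem Ioo_div {ν a b : ℝ} (hν : 0 < ν) :
    Ioo (ν * a) (ν * b) = {t : ℝ | t / ν ∈ Ioo a b} := by
  ext t
  simp only [mem_Ioo, mem_ofPred_eq]
  rw [div_lt_iff₀ hν, lt_div_iff₀ hν, mul_comm a ν, mul_comm b ν]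

theorem t_MIX (hsc : S_WSCAL) (h1 : S_MIX1) : S_MIX := by
  obtain ⟨ε, hε, h1⟩ := h1
  refine ⟨ε, hε, ?_⟩
  intro ν T E D G u p hν hT ρ r t₀ hρ hρr hr1 hρt htT x₀ ξ hξ hdis hB hsing
  obtain ⟨hT', hs⟩ := hsc ν T E D G u p hν hT
  have e0 : ν * t₀ - ρ ^ 2 = ν * (t₀ - ρ ^ 2 / ν) := by
    field_simp
  refine h1 _ _ _ _ _ _ hT' ρ r (ν * t₀) hρ hρr hr1 (by rwa [div_lt_iff₀' hν] at hρt)
    (mul_lt_mul_of_pos_left htT hν) x₀ (fun t => ξ (t / ν)) (hξ.comp (by fun_prop)) ?_ ?_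
    (hs t₀ x₀ hsing)
  · intro t ht
    have ht' : t / ν ∈ Icc (t₀ - ρ ^ 2 / ν) t₀ := by
      rw [e0] at ht
      refine ⟨?_, ?_⟩
      · rw [le_div_iff₀ hν, mul_comm]
        exact ht.1
      · rw [div_le_iff₀ hν, mul_comm]
        exact ht.2
    have h2 := hdis (t / ν) ht'
    have e1 : ∫ s in Ioo t (ν * t₀), av r (fun x => ν⁻¹ • u (s / ν) x) (ξ (s / ν)) =
        ∫ s in Ioo (t / ν) t₀, av r (u s) (ξ s) := by
      have e2 : t = ν * (t / ν) := by field_simp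
      rw [show Ioo t (ν * t₀) = Ioo (ν * (t / ν)) (ν * t₀) by rw [← e2], Ioo_div hν]
      simp_rw [av_smul]
      rw [chgV hν measurableSet_Ioo (fun s => ν⁻¹ • av r (u s) (ξ s)), integral_smul, smul_smul,
        mul_inv_cancel₀ hν.ne', one_smul]
    show ‖ξ (t / ν) - x₀ + ∫ s in Ioo t (ν * t₀),
      av r (fun x => ν⁻¹ • u (s / ν) x) (ξ (s / ν))‖ ≤ ε * r
    rw [e1]
    exact h2
  · rw [e0, Ioo_div hν]
    have e3 : ∀ t : ℝ, B2 (ξ (t / ν)) r (fun x => ν⁻¹ • u (t / ν) x) =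
        (fun s => ν⁻¹ ^ 2 * B2 (ξ s) r (u s)) (t / ν) := fun t => B2_smul _ _ _ _
    simp only [e3]
    rw [chg hν measurableSet_Ioo (fun s => ν⁻¹ ^ 2 * B2 (ξ s) r (u s)), integral_const_mul]
    calc ν * (ν⁻¹ ^ 2 * ∫ t in Ioo (t₀ - ρ ^ 2 / ν) t₀, B2 (ξ t) r (u t))
        ≤ ν * (ν⁻¹ ^ 2 * (ε * ν * ρ)) := by gcongr
      _ = ε * ρ := by field_simp

theorem p_mix : S_MIX := t_MIX Pool.Agent.Y8.B.p_wscal p_mix1

/-- The lower bound for the dissipation in short cylinders. -/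
def S_LOW : Prop := ∃ κ c : ℝ, 0 < κ ∧ 0 < c ∧ ∀ (ν T E D : ℝ) (G : Set ℝ) (u : ℝ → V → V)
  (p : ℝ → V → ℝ), 0 < ν → Turb ν T E D G u p → ∀ (t₀ : ℝ) (x₀ : V), SingPt G u t₀ x₀ →
    ∀ r : ℝ, 0 < r → r ≤ 1 → κ * r ^ (5 / 2 : ℝ) / (|E| + ν) < t₀ → t₀ < T →
      c * ν ^ (3 / 2 : ℝ) * r ^ (5 / 4 : ℝ) / √(|E| + ν) ≤
        ∫ t in Ioo (t₀ - κ * r ^ (5 / 2 : ℝ) / (|E| + ν)) t₀, B2 x₀ r (u t)

theorem t_LOW (h1 : S_MIX) : S_LOW := by
  obtain ⟨ε, hε, h1⟩ := h1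
  obtain ⟨K, hK, hb⟩ := av_bd
  obtain ⟨κ, hκ⟩ : ∃ κ : ℝ, κ = min 1 (ε / K) := ⟨_, rfl⟩
  have hκ0 : 0 < κ := by rw [hκ]; positivity
  have hκ1 : κ ≤ 1 := by rw [hκ]; exact min_le_left _ _
  have hκ2 : κ * K ≤ ε := by
    rw [← le_div_iff₀ hK, hκ]
    exact min_le_right _ _
  refine ⟨κ, ε * √κ, hκ0, by positivity, ?_⟩
  intro ν T E D G u p hν hT t₀ x₀ hsing r hr hr1 htr htT
  have hM : 0 < |E| + ν := by positivity
  obtain ⟨τ, hτ⟩ : ∃ τ : ℝ, τ = κ * r ^ (5 / 2 : ℝ) / (|E| + ν) := ⟨_, rfl⟩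
  have hτ0 : 0 < τ := by rw [hτ]; positivity
  rw [← hτ] at htr ⊢
  obtain ⟨ρ, hρ⟩ : ∃ ρ : ℝ, ρ = √(ν * τ) := ⟨_, rfl⟩
  have hρ0 : 0 < ρ := by rw [hρ]; positivity
  have hρ2 : ρ ^ 2 = ν * τ := by rw [hρ, Real.sq_sqrt (by positivity)]
  have hρν : ρ ^ 2 / ν = τ := by rw [hρ2]; field_simp
  have hr52 : r ^ (5 / 2 : ℝ) = r ^ 2 * √r := by
    rw [Real.sqrt_eq_rpow, ← Real.rpow_natCast r 2, ← Real.rpow_add hr]
    norm_num
  have hsr : √r ≤ 1 := by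
    rw [← Real.sqrt_one]
    exact Real.sqrt_le_sqrt hr1
  have hρr : ρ ≤ r := by
    rw [hρ, ← Real.sqrt_sq hr.le]
    refine Real.sqrt_le_sqrt ?_
    rw [hτ, hr52]
    have h2 : ν / (|E| + ν) ≤ 1 := by
      rw [div_le_one hM]
      linarith [abs_nonneg E]
    calc ν * (κ * (r ^ 2 * √r) / (|E| + ν)) = (ν / (|E| + ν)) * κ * √r * r ^ 2 := by ring
      _ ≤ 1 * 1 * 1 * r ^ 2 := by gcongr
      _ = r ^ 2 := by ring
  by_contra hcon
  rw [not_le] at hcon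
  refine h1 ν T E D G u p hν hT ρ r t₀ hρ0 hρr hr1 (by rwa [hρν]) htT x₀ (fun _ => x₀)
    continuous_const ?_ ?_ hsing
  · intro t ht
    rw [hρν] at ht
    rw [sub_self, zero_add]
    have h2 : ‖∫ s in Ioo t t₀, av r (u s) x₀‖ ≤ K * |E| / √(r ^ 3) * volume.real (Ioo t t₀) := by
      refine norm_setIntegral_le_of_norm_le_const_ae' measure_Ioo_lt_top ?_
      have h3 : volume (Ioo t t₀ \ G) = 0 :=
        measure_mono_null (sdiff_subset_sdiff_left (Ioo_subset_Ioo (by linarith [ht.1]) htT.le))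
          hT.fullG
      have h4 : ∀ᵐ s : ℝ, s ∉ Ioo t t₀ \ G := measure_eq_zero_iff_ae_notMem.1 h3
      filter_upwards [h4] with s hs hsI
      have hsG : s ∈ G := by
        by_contra hc
        exact hs ⟨hsI, hc⟩
      exact hb E (u s) (hT.spv hsG) (hT.energy_le s hsG) r x₀ hr hr1
    refine h2.trans ?_
    have h5 : volume.real (Ioo t t₀) ≤ τ := by
      rw [Measure.real, Real.volume_Ioo, ENNReal.toReal_ofReal (by linarith [ht.2])]
      linarith [ht.1]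
    have h6 : √(r ^ 3) = r * √r := by
      rw [show r ^ 3 = r ^ 2 * r by ring, Real.sqrt_mul (by positivity), Real.sqrt_sq hr.le]
    have hsr0 : 0 < √r := Real.sqrt_pos.2 hr
    calc K * |E| / √(r ^ 3) * volume.real (Ioo t t₀) ≤ K * |E| / √(r ^ 3) * τ := by gcongr
      _ = (κ * K) * (|E| / (|E| + ν)) * r := by
          rw [h6, hτ, hr52]
          field_simp
      _ ≤ ε * 1 * r := by
          have h7 : |E| / (|E| + ν) ≤ 1 := by
            rw [div_le_one hM]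
            linarith
          gcongr
      _ = ε * r := by ring
  · rw [hρν]
    refine hcon.le.trans (le_of_eq ?_)
    have h8 : ρ = √ν * (√κ * r ^ (5 / 4 : ℝ)) / √(|E| + ν) := by
      rw [hρ, hτ, Real.sqrt_mul hν.le, Real.sqrt_div (by positivity), Real.sqrt_mul hκ0.le]
      have h9 : √(r ^ (5 / 2 : ℝ)) = r ^ (5 / 4 : ℝ) := by
        rw [Real.sqrt_eq_rpow, ← Real.rpow_mul hr.le]
        norm_num
      rw [h9]
      ring
    have h10 : ν ^ (3 / 2 : ℝ) = ν * √ν := by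
      rw [Real.sqrt_eq_rpow]
      nth_rewrite 2 [← Real.rpow_one ν]
      rw [← Real.rpow_add hν]
      norm_num
    rw [h8, h10]
    ring

theorem p_low : S_LOW := t_LOW p_mix

end Pool.Agent.Helper21K1
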