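import Pool.Agent.Y8.FB.Past

/-!
Comparison of the mean over a cube with the weighted mean over a smaller cube (helper21).
-/

set_option autoImplicit false

open MeasureTheory Set Metric Filter Topology
open scoped ContDiff NNReal ENNReal

namespace Pool.Agent.Helper21K1

open H459R3.NS W221.NS Pool.Agent.Y8 Pool.Agent.Y496.NS Pool.Agent.W12.MD

/-- The mean of `u` over the cube with centre `x` and side `2 r`. -/
noncomputable def av (r : ℝ) (u : V → V) (x : V) : V :=
  fun i => ((2 * r) ^ 3)⁻¹ * ∫ y in ball x r, u y i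

theorem vol_ball (x : V) {r : ℝ} (hr : 0 < r) : volume.real (ball x r) = (2 * r) ^ 3 := by
  rw [Measure.real, Real.volume_pi_ball x hr]
  simp only [Fintype.card_fin]
  rw [ENNReal.toReal_ofReal (by positivity)]

theorem av_cmp {u : V → V} (hu : ContDiff ℝ ∞ u) (x : V) {r : ℝ} (hr : 0 < r) (c : V) (i : Fin 3) :
    (av r u x i - c i) ^ 2 ≤ ((2 * r) ^ 3)⁻¹ * A2 x r (fun z => u z - c) := by
  obtain ⟨m, hm⟩ : ∃ m : ℝ, m = av r u x i - c i := ⟨_, rfl⟩
  have hv : 0 < (2 * r) ^ 3 := by positivity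
  have hcu : Continuous (fun y => u y i) := (smooth_comp hu i).continuous
  have hcf : Continuous (fun y => u y i - c i) := hcu.sub continuous_const
  have i1 : IntegrableOn (fun y => u y i) (ball x r) := intB hcu _ _
  have i2 : IntegrableOn (fun y => u y i - c i) (ball x r) := intB hcf _ _
  have i3 : IntegrableOn (fun y => (u y i - c i) ^ 2) (ball x r) := intB (hcf.pow 2) _ _
  have hint : ∫ y in ball x r, (u y i - c i) = (2 * r) ^ 3 * m := by
    rw [integral_sub i1 (intB continuous_const _ _), setIntegral_const, vol_ball x hr, smul_eq_mul,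
      hm]
    unfold av
    field_simp
  have h0 : 0 ≤ ∫ y in ball x r, (u y i - c i - m) ^ 2 := integral_nonneg fun y => sq_nonneg _
  have h1 : ∫ y in ball x r, (u y i - c i - m) ^ 2 =
      (∫ y in ball x r, (u y i - c i) ^ 2) - m ^ 2 * (2 * r) ^ 3 := by
    have e : ∀ y, (u y i - c i - m) ^ 2 =
        (u y i - c i) ^ 2 - 2 * m * (u y i - c i) + m ^ 2 := fun y => by ring
    simp_rw [e]
    have i4 : IntegrableOn (fun y => 2 * m * (u y i - c i)) (ball x r) := i2.const_mul _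
    have i5 : IntegrableOn (fun y => (u y i - c i) ^ 2 - 2 * m * (u y i - c i)) (ball x r) :=
      i3.sub i4
    have i6 : IntegrableOn (fun _ : V => m ^ 2) (ball x r) := intB continuous_const _ _
    rw [integral_add i5 i6, integral_sub i3 i4, integral_const_mul, hint, setIntegral_const,
      vol_ball x hr, smul_eq_mul]
    ring
  have h2 : ∫ y in ball x r, (u y i - c i) ^ 2 ≤ A2 x r (fun z => u z - c) := by
    unfold A2
    refine setIntegral_mono i3 (intB (nsq_cont (sub_sm hu c)) _ _) fun z => ?_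
    exact Finset.single_le_sum (f := fun i => (u z i - c i) ^ 2) (fun i _ => sq_nonneg _)
      (Finset.mem_univ i)
  rw [← hm, ← div_eq_inv_mul, le_div_iff₀ hv]
  linarith

theorem cmp (hP : S_POINC) : ∃ C : ℝ, 0 < C ∧ ∀ u : V → V, ContDiff ℝ ∞ u → ∀ (x y : V) (r s : ℝ),
    0 < s → 4 * s ≤ r → ‖y - x‖ ≤ r / 4 →
      ‖mo s u y - av r u x‖ ≤ C * √(s⁻¹ * B2 x r u) := by
  obtain ⟨C₁, hC₁, hD⟩ := t_DYMO hP
  obtain ⟨C, hC, hP⟩ := hP
  obtain ⟨Ct, hCt0, hCt⟩ := th_bdd
  refine ⟨C₁ + √(16 * (Ct * C)) + √C, by positivity, fun u hu x y r s hs hsr hyx => ?_⟩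
  have hr : 0 < r := by linarith
  obtain ⟨B, hB⟩ : ∃ B : ℝ, B = s⁻¹ * B2 x r u := ⟨_, rfl⟩
  have hBn : 0 ≤ B2 x r u := B2_nn _ _ _
  have hB0 : 0 ≤ B := by rw [hB]; exact mul_nonneg (by positivity) hBn
  have hrs : r⁻¹ ≤ s⁻¹ := inv_anti₀ hs (by linarith)
  have hrB : r⁻¹ * B2 x r u ≤ B := by
    rw [hB]
    exact mul_le_mul_of_nonneg_right hrs hBn
  have h1 := hD u hu x y (r / 4) s hs (by linarith) hyx
  rw [show 4 * (r / 4) = r by ring, ← hB] at h1
  have h2 := dev' hP hu x (r := r / 2) (by positivity)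
  rw [show 2 * (r / 2) = r by ring] at h2
  obtain ⟨c, hc⟩ : ∃ c : V, c = mo (r / 2) u x := ⟨_, rfl⟩
  rw [← hc] at h2
  have h3 : ∀ i, (mo (r / 4) u x i - c i) ^ 2 ≤ 16 * (Ct * C) * B := by
    intro i
    refine (mo_cmp hCt hCt0 hu x (R := r / 4) (by positivity) c i).trans ?_
    have h4 : A2 x (r / 4) (fun z => u z - c) ≤ A2 x r (fun z => u z - c) :=
      A2_mono (sub_sm hu _) (ball_subset_ball (by linarith))
    calc Ct * (((r / 4) ^ 3)⁻¹ * A2 x (r / 4) (fun z => u z - c))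
        ≤ Ct * (((r / 4) ^ 3)⁻¹ * (C * (r / 2) ^ 2 * B2 x r u)) := by
          have := h4.trans h2
          gcongr
      _ = 16 * (Ct * C) * (r⁻¹ * B2 x r u) := by
          field_simp
          ring
      _ ≤ _ := by gcongr
  have h5 : ∀ i, (av r u x i - c i) ^ 2 ≤ C * B := by
    intro i
    refine (av_cmp hu x hr c i).trans ?_
    calc ((2 * r) ^ 3)⁻¹ * A2 x r (fun z => u z - c)
        ≤ ((2 * r) ^ 3)⁻¹ * (C * (r / 2) ^ 2 * B2 x r u) := by gcongr
      _ = (1 / 32) * (C * (r⁻¹ * B2 x r u)) := by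
          field_simp
          ring
      _ ≤ 1 * (C * B) := by
          gcongr
          norm_num
      _ = C * B := one_mul _
  rw [← hB]
  have h6 : ‖mo (r / 4) u x - av r u x‖ ≤ (√(16 * (Ct * C)) + √C) * √B := by
    rw [pi_norm_le_iff_of_nonneg (by positivity)]
    intro i
    have e : (mo (r / 4) u x - av r u x) i = (mo (r / 4) u x i - c i) - (av r u x i - c i) := by
      rw [Pi.sub_apply]; ring
    rw [e]
    refine (norm_sub_le _ _).trans ?_
    rw [Real.norm_eq_abs, Real.norm_eq_abs, add_mul]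
    refine add_le_add ?_ ?_
    · rw [← Real.sqrt_mul (by positivity), ← Real.sqrt_sq_eq_abs]
      exact Real.sqrt_le_sqrt (h3 i)
    · rw [← Real.sqrt_mul (by positivity), ← Real.sqrt_sq_eq_abs]
      exact Real.sqrt_le_sqrt (h5 i)
  calc ‖mo s u y - av r u x‖ = ‖(mo s u y - mo (r / 4) u x) + (mo (r / 4) u x - av r u x)‖ := by
        congr 1
        abel
    _ ≤ ‖mo s u y - mo (r / 4) u x‖ + ‖mo (r / 4) u x - av r u x‖ := norm_add_le _ _
    _ ≤ C₁ * √B + (√(16 * (Ct * C)) + √C) * √B := add_le_add h1 h6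
    _ = _ := by ring

end Pool.Agent.Helper21K1
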